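import Mathlib
import Pool.Agent.H749R6.CM.Fin

/-!
# The primes just below the multiples of almost every real number

The theorem is the finished, never handed in development `Pool.Agent.H749R6.CM` of the starting files. It
combines the positive proportion theorem for `m` primes after a long gap (`Pool.Agent.H361R2.PP`) with the
count of the pairs `(k, n)`, `n` in an arbitrary set, with `n` just below `k x`, for all `x` outside a set
of small measure (`Pool.Agent.H438R2.DL.pairs_asymp`).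
-/

set_option autoImplicit false

namespace Pool.Agent.Results.MP_ff81b6_nt.CountsBelowMultiples

open MeasureTheory

/-- The interval `(y - lam log y, y)` contains exactly `m` primes, and the interval
`(y - Lam log y, y - lam log y]` contains none. -/
def GapThen (lam Lam : ℝ) (m : ℕ) (y : ℝ) : Prop :=
  {p : ℕ | p.Prime ∧ y - lam * Real.log y < p ∧ (p : ℝ) < y}.ncard = m ∧
    ∀ p : ℕ, p.Prime → y - Lam * Real.log y < p → ¬ (p : ℝ) ≤ y - lam * Real.log y

/-- Let `0 < δ < 1`, `0 < lam ≤ Lam` and `m ≥ 0` be fixed. There are `c, κ > 0` such that for all large `Y` all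
real numbers `x ∈ [Y, 2 Y]` outside a set of measure at most `Y ^ (1 - κ)` have the following property:
a positive proportion `≥ c` of the positive integers `k ≤ Y ^ δ` are such that exactly `m` primes lie in
`(k x - lam log (k x), k x)` and none in `(k x - Lam log (k x), k x - lam log (k x)]`. -/
theorem result (δ lam Lam : ℝ) (m : ℕ) (hδ : 0 < δ) (hδ1 : δ < 1) (hl : 0 < lam) (hL : lam ≤ Lam) :
    ∃ c κ : ℝ, 0 < c ∧ 0 < κ ∧ ∃ Y₀ : ℝ, ∀ Y : ℝ, Y₀ ≤ Y →
      ∃ E : Set ℝ, MeasurableSet E ∧ volume E ≤ ENNReal.ofReal (Y ^ (1 - κ)) ∧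
      ∀ x : ℝ, Y ≤ x → x ≤ 2 * Y → x ∉ E →
        c * Y ^ δ ≤ ({k : ℕ | 1 ≤ k ∧ (k : ℝ) ≤ Y ^ δ ∧ GapThen lam Lam m (k * x)}.ncard : ℝ) := by
  obtain ⟨c, κ, hc, hκ, Y₀, h⟩ := Pool.Agent.H749R6.CM.multiples δ lam Lam m hδ hδ1 hl hL
  refine ⟨c / 2, κ, by positivity, hκ, ?_⟩
  obtain ⟨Y₁, hY₁⟩ := Filter.eventually_atTop.1 ((tendsto_rpow_atTop hδ).eventually_ge_atTop (2 / c))
  refine ⟨max (max Y₀ Y₁) 2, fun Y hY => ?_⟩
  obtain ⟨E, hE, hE2, hx⟩ := h Y (((le_max_left _ _).trans (le_max_left _ _)).trans hY)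
  refine ⟨E, hE, hE2, fun x h1 h2 h3 => ?_⟩
  have h4 := hx x h1 h2 h3
  have h5 : 2 / c ≤ Y ^ δ := hY₁ Y (((le_max_right _ _).trans (le_max_left _ _)).trans hY)
  rw [div_le_iff₀ hc] at h5
  have hfin : {k : ℕ | 1 ≤ k ∧ (k : ℝ) ≤ Y ^ δ ∧ GapThen lam Lam m (k * x)}.Finite := by
    apply (Set.finite_Iic ⌊Y ^ δ⌋₊).subset
    intro k hk
    exact Set.mem_Iic.2 (Nat.le_floor hk.2.1)
  have h6 : {k : ℕ | (k : ℝ) ≤ Y ^ δ ∧
      {p : ℕ | p.Prime ∧ k * x - lam * Real.log (k * x) < p ∧ (p : ℝ) < k * x}.ncard = m ∧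
      ∀ p : ℕ, p.Prime → k * x - Lam * Real.log (k * x) < p → (p : ℝ) < k * x →
        k * x - lam * Real.log (k * x) < p} ⊆
      insert 0 {k : ℕ | 1 ≤ k ∧ (k : ℝ) ≤ Y ^ δ ∧ GapThen lam Lam m (k * x)} := by
    rintro k ⟨g1, g2, g3⟩
    rcases Nat.eq_zero_or_pos k with h0 | h0
    · left; exact h0
    · right
      refine ⟨h0, g1, g2, fun p hp g4 g5 => ?_⟩
      by_cases g6 : (p : ℝ) < k * x
      · exact absurd (g3 p hp g4 g6) (not_lt.2 g5)
      · push Not at g6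
        have h0' : (1 : ℝ) ≤ k := by exact_mod_cast h0
        have hx2 : 2 ≤ x := (le_trans (le_max_right _ _) hY).trans h1
        have g9 : (1 : ℝ) < k * x := by nlinarith
        have := mul_pos hl (Real.log_pos g9)
        linarith
  have h7 := Set.ncard_le_ncard h6 (hfin.insert 0)
  have h8 := Set.ncard_insert_le 0 {k : ℕ | 1 ≤ k ∧ (k : ℝ) ≤ Y ^ δ ∧ GapThen lam Lam m (k * x)}
  have h9 : ({k : ℕ | (k : ℝ) ≤ Y ^ δ ∧
      {p : ℕ | p.Prime ∧ k * x - lam * Real.log (k * x) < p ∧ (p : ℝ) < k * x}.ncard = m ∧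
      ∀ p : ℕ, p.Prime → k * x - Lam * Real.log (k * x) < p → (p : ℝ) < k * x →
        k * x - lam * Real.log (k * x) < p}.ncard : ℝ) ≤
      ({k : ℕ | 1 ≤ k ∧ (k : ℝ) ≤ Y ^ δ ∧ GapThen lam Lam m (k * x)}.ncard : ℝ) + 1 := by
    exact_mod_cast h7.trans h8
  linarith

end Pool.Agent.Results.MP_ff81b6_nt.CountsBelowMultiples
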