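import Mathlib
import Pool.Agent.R527.MT.Metric
import Pool.Agent.R527.MT.Num3

/-!
# The distance to the nearest prime along almost every sequence of a family

Let `g 0, g 1, g 2, …` be convex functions on an open set `I` of real numbers with `g k t → ∞` for
every `t`, and such that for all `s < t` in `I` the ratios `g k t / g k s` stay away from `1` for
large `k`.  Examples: `g k t = a k * t` on `(0, ∞)` for an arbitrary sequence `a k → ∞`;
`g k t = t ^ k` on `(1, ∞)`; `g k t = a k ^ t`.  Then for almost every `t`, for all `0 ≤ u < v` the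
inequalities `u < dist (g k t) / log (g k t) < v`, where `dist` is the distance to the nearest prime,
hold for a set of indices `k` of upper density at least `δ u v > 0`, where `δ` depends neither on `t`
nor on the sequence of functions.
-/

set_option autoImplicit false

open Filter MeasureTheory

namespace Pool.Agent.Results.MP_ff81b6_nt.GenericDistances

/-- the distance from `z` to the nearest prime -/
noncomputable def distPrime (z : ℝ) : ℝ := Metric.infDist z {y : ℝ | ∃ p : ℕ, p.Prime ∧ (p : ℝ) = y}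

open Pool.Agent.R527.MT

theorem F_mono {u u' v' v : ℝ} (hv' : 0 < v') (h1 : u ≤ u') (h2 : v' ≤ v) : F u' v' ⊆ F u v := by
  rintro z ⟨h3, h4⟩
  have h0 : 0 ≤ D z := Metric.infDist_nonneg
  have hl : 0 < Real.log z := by
    by_contra hcon
    rw [not_lt] at hcon
    have := mul_nonpos_of_nonneg_of_nonpos hv'.le hcon
    linarith
  exact ⟨(mul_le_mul_of_nonneg_right h1 hl.le).trans_lt h3,
    h4.trans_le (mul_le_mul_of_nonneg_right h2 hl.le)⟩

open Classical in
/-- There is a function `δ`, positive for `0 ≤ u < v`, with the following property.  Let `g k`,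
`k = 0, 1, 2, …`, be convex functions on an open set `I` of real numbers such that `g k t → ∞` as
`k → ∞` for every `t ∈ I`, and such that for all `s < t` in `I` there is `ρ > 1` with
`g k t ≥ ρ * g k s` for all large `k`.  Then for almost every `t ∈ I`, for all `0 ≤ u < v` there are
infinitely many `K` such that at least `δ u v * K` of the indices `k < K` satisfy
`u * log (g k t) < distPrime (g k t) < v * log (g k t)`. -/
theorem result : ∃ δ : ℝ → ℝ → ℝ, (∀ u v : ℝ, 0 ≤ u → u < v → 0 < δ u v) ∧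
    ∀ (I : Set ℝ) (g : ℕ → ℝ → ℝ), IsOpen I → (∀ k, ConvexOn ℝ I (g k)) →
      (∀ t ∈ I, Tendsto (fun k => g k t) atTop atTop) →
      (∀ s ∈ I, ∀ t ∈ I, s < t → ∃ ρ : ℝ, 1 < ρ ∧ ∀ᶠ k in atTop, ρ * g k s ≤ g k t) →
      ∀ᵐ t ∂(volume.restrict I), ∀ u v : ℝ, 0 ≤ u → u < v → ∃ᶠ K : ℕ in atTop,
        δ u v * K ≤ (((Finset.range K).filter (fun k =>
          u * Real.log (g k t) < distPrime (g k t) ∧
            distPrime (g k t) < v * Real.log (g k t))).card : ℝ) := by
  have hc : ∀ q : ℚ × ℚ, ∃ c : ℝ, 0 < c ∧ ((0 ≤ q.1 ∧ q.1 < q.2) → c ≤ 1 ∧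
      ∀ η : ℝ, 0 < η → η ≤ 1 → ∃ x₀ : ℝ, ∀ x, x₀ ≤ x →
        ENNReal.ofReal (c * (η * x)) ≤ volume (F q.1 q.2 ∩ Set.Icc x ((1 + η) * x))) := by
    intro q
    by_cases h : 0 ≤ q.1 ∧ q.1 < q.2
    · obtain ⟨c, h1, h2, h3⟩ := dens (q.1 : ℝ) (q.2 : ℝ) (by exact_mod_cast h.1) (by exact_mod_cast h.2)
      exact ⟨c, h1, fun _ => ⟨h2, h3⟩⟩
    · exact ⟨1, one_pos, fun h' => absurd h' h⟩
  choose c hc0 hc using hc
  have hq : ∀ w : ℝ × ℝ, ∃ q : ℚ × ℚ, (0 ≤ w.1 → w.1 < w.2 →
      (0 ≤ q.1 ∧ q.1 < q.2) ∧ w.1 ≤ q.1 ∧ (q.2 : ℝ) ≤ w.2) := by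
    intro w
    by_cases h : 0 ≤ w.1 ∧ w.1 < w.2
    · obtain ⟨q₁, h1, h2⟩ := exists_rat_btwn h.2
      obtain ⟨q₂, h3, h4⟩ := exists_rat_btwn h2
      refine ⟨(q₁, q₂), fun _ _ => ⟨⟨?_, ?_⟩, h1.le, h4.le⟩⟩
      · have : (0 : ℝ) ≤ q₁ := h.1.trans h1.le
        exact_mod_cast this
      · exact_mod_cast h3
    · exact ⟨(0, 0), fun h1 h2 => absurd ⟨h1, h2⟩ h⟩
  choose q hq using hq
  refine ⟨fun u v => c (q (u, v)) / 16, fun u v _ _ => by have := hc0 (q (u, v)); positivity, ?_⟩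
  intro I g hI hg hlim hgr
  have hall : ∀ᵐ t ∂(volume.restrict I), ∀ r : ℚ × ℚ, (0 ≤ r.1 ∧ r.1 < r.2) →
      ∃ᶠ K : ℕ in atTop, c r / 16 * K ≤
        (((Finset.range K).filter (fun k => g k t ∈ F r.1 r.2)).card : ℝ) := by
    rw [ae_all_iff]
    intro r
    by_cases h : 0 ≤ r.1 ∧ r.1 < r.2
    · obtain ⟨h1, h2⟩ := hc r h
      filter_upwards [metric (measurableSet_F r.1 r.2) (hc0 r) h1 h2 hI hg hlim hgr] with t ht _
      exact ht
    · exact Eventually.of_forall fun t h' => absurd h' h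
  filter_upwards [hall] with t ht u v hu huv
  obtain ⟨h1, h2, h3⟩ := hq (u, v) hu huv
  refine (ht (q (u, v)) h1).mono fun K hK => hK.trans ?_
  apply Nat.cast_le.2
  apply Finset.card_le_card
  intro k hk
  rw [Finset.mem_filter] at hk ⊢
  have hv' : (0 : ℝ) < (q (u, v)).2 := by exact_mod_cast h1.1.trans_lt h1.2
  exact ⟨hk.1, F_mono hv' h2 h3 hk.2⟩

end Pool.Agent.Results.MP_ff81b6_nt.GenericDistances
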