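import Mathlib
import Pool.Agent.R528.RM.SievedFinal

set_option autoImplicit false

/-!
# Large gaps in the sieved random models of the primes: the constant `2 exp (-γ)`

The refinement of Cramér's random model mentioned in the problem removes first the integers `n` with
a prime factor `≤ z(n)`, for a sieving level `z(n)` of about `log n`, and then chooses each remaining
integer with probability about `∏_{p ≤ z(n)} (1 - 1/p)⁻¹ / log n`.  Here NO independence is assumed:
the integers are decided one after the other and only the conditional probability given the past is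
prescribed, asymptotically and almost surely.  The level `z` may be any nondecreasing function with
`log z(n) ~ log log n` (for instance `log n`, `(log n) / log log n`, `(log n) (log log n)^5`).

`result`: almost surely the random set is infinite and for every `c < 2 exp (-γ) = 1.1229...` and ALL
large `x` there are consecutive chosen integers `p_n ≤ x` and `p_{n+1}` with
`p_{n+1} - p_n ≥ c (log x)²`.  In particular `limsup (p_{n+1} - p_n) / (log p_n)² ≥ 2 exp (-γ) > 1` in
every such model.
-/

open MeasureTheory Filter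
open scoped Topology

namespace Pool.Agent.Results.MP_ff81b6_nt.LargeGapsSievedModels

/-- the conditional probability that `n + 1` is chosen, given the information up to `n` -/
noncomputable def density {Ω : Type} {mΩ : MeasurableSpace Ω} (μ : Measure Ω) (ℱ : Filtration ℕ mΩ)
    (A : ℕ → Set Ω) (n : ℕ) : Ω → ℝ := μ[(A (n + 1)).indicator (fun _ => (1 : ℝ)) | ℱ n]

/-- `n` survives the sieve of level `z n`: no prime factor of `n` is `≤ z n` -/
def Unsieved (z : ℕ → ℕ) (n : ℕ) : Prop := ∀ p, p.Prime → p ∣ n → z n < p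

/-- the sieve density `∏_{p ≤ y} (1 - 1/p)` -/
noncomputable def mertens (y : ℕ) : ℝ := ∏ p ∈ (Finset.Icc 1 y).filter Nat.Prime, (1 - (p : ℝ)⁻¹)

/-- the elements of `S` in increasing order, the least one having number `0` -/
noncomputable def element (S : Set ℕ) (n : ℕ) : ℕ := Nat.nth (· ∈ S) n

lemma mertens_eq (y : ℕ) : (mertens y)⁻¹ = Pool.Agent.R528.RM.MM y := by
  unfold mertens Pool.Agent.R528.RM.MM
  rw [Finset.prod_inv_distrib]

end Pool.Agent.Results.MP_ff81b6_nt.LargeGapsSievedModels

open Pool.Agent.Results.MP_ff81b6_nt.LargeGapsSievedModels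

theorem Pool.Agent.Results.MP_ff81b6_nt.LargeGapsSievedModels.result
    {Ω : Type} [mΩ : MeasurableSpace Ω] (μ : Measure Ω) [IsProbabilityMeasure μ]
    (ℱ : Filtration ℕ mΩ) (A : ℕ → Set Ω) (hA : ∀ n, MeasurableSet[ℱ n] (A n))
    (z : ℕ → ℕ) (hmono : Monotone z)
    (hz : Tendsto (fun n : ℕ => Real.log (z n) / Real.log (Real.log n)) atTop (𝓝 1))
    (hcop : ∀ n, ¬ Unsieved z n → A n = ∅)
    (hd : ∀ᵐ ω ∂μ, Tendsto (fun n : ℕ => density μ ℱ A n ω * Real.log n * mertens (z (n + 1)))
      (atTop ⊓ 𝓟 {n : ℕ | Unsieved z (n + 1)}) (𝓝 1)) :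
    ∀ᵐ ω ∂μ, {a | ω ∈ A a}.Infinite ∧ ∀ c : ℝ, c < 2 * Real.exp (-Real.eulerMascheroniConstant) →
      ∀ᶠ x : ℕ in atTop, ∃ n, element {a | ω ∈ A a} n ≤ x ∧
        c * Real.log x ^ 2 ≤ (element {a | ω ∈ A a} (n + 1) : ℝ) - element {a | ω ∈ A a} n := by
  refine Pool.Agent.R528.RM.sieved_law hA hmono hz hcop ?_
  filter_upwards [hd] with ω hω
  refine hω.congr fun n => ?_
  rw [← mertens_eq, div_inv_eq_mul]
  rfl
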