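import Mathlib
import Pool.Agent.R529.LG.Fin

/-!
# Linnik's theorem for primes isolated by long gaps

Every reduced residue class modulo `q`, `q ≤ X ^ κ`, contains primes `p ≤ X` on both sides of which the gaps
are of Rankin's size. The lower bound for the primes in the classes is the Linnik type theorem of the starting
files (away from one exceptional modulus), applied to the modulus `q M`, where `M` is the product of the primes up to a
small multiple of `log X` which do not divide `q` (and one further prime); the classes modulo `M` are those of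
Rankin's method with a prime in the middle of the window (`Pool.Agent.TH101.RG.rsurvK`, starting files).
-/

set_option autoImplicit false

namespace Pool.Agent.Results.MP_ff81b6_nt.LinnikIsolatedPrimes

open Finset Filter

/-- Rankin's function `R(x) = log x log₂ x log₄ x / (log₃ x)²` (iterated natural logarithms). -/
noncomputable def R (x : ℝ) : ℝ :=
  Real.log x * Real.log (Real.log x) * Real.log (Real.log (Real.log (Real.log x))) /
    (Real.log (Real.log (Real.log x))) ^ 2

/-- `T(x) = log₂ x log₄ x / (40 log₃ x)`. -/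
noncomputable def T (x : ℝ) : ℝ :=
  Real.log (Real.log x) * Real.log (Real.log (Real.log (Real.log x))) /
    (40 * Real.log (Real.log (Real.log x)))

/-- The prime factors of `q` up to `log x` are few: the sum of their inverses is at most `A`, and the sum of the
inverses of those between `exp (T x)` and `log x` is at most `A / log log x`. -/
def Thin (A x : ℝ) (q : ℕ) : Prop :=
  ∑ p ∈ q.primeFactors.filter (fun p : ℕ => (p : ℝ) ≤ Real.log x), (1 : ℝ) / p ≤ A ∧
  ∑ p ∈ q.primeFactors.filter (fun p : ℕ => (p : ℝ) ≤ Real.log x ∧ T x < Real.log p), (1 : ℝ) / p ≤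
    A / Real.log (Real.log x)

/-- The integers with at most `A` different prime factors up to `log x` are thin, for all large `x`. -/
theorem thin_of_few (A : ℕ) : ∃ x₀ : ℝ, ∀ x : ℝ, x₀ ≤ x → ∀ q : ℕ,
    (q.primeFactors.filter (fun p : ℕ => (p : ℝ) ≤ Real.log x)).card ≤ A → Thin A x q := by
  have t1 := Real.tendsto_log_atTop
  have t2 : Tendsto (fun y : ℝ => Real.log (Real.log y)) atTop atTop := t1.comp t1
  have t3 : Tendsto (fun y : ℝ => Real.log (Real.log (Real.log y))) atTop atTop := t1.comp t2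
  have t4 : Tendsto (fun y : ℝ => Real.log (Real.log (Real.log (Real.log y)))) atTop atTop := t1.comp t3
  have h1 := t3.eventually ((Real.tendsto_exp_div_pow_atTop 2).eventually_ge_atTop 40)
  obtain ⟨x₀, hx₀⟩ := eventually_atTop.1 (((h1.and (t2.eventually_ge_atTop 1)).and
    ((t3.eventually_ge_atTop 1).and (t4.eventually_ge_atTop 1))))
  refine ⟨x₀, fun x hx q hq => ?_⟩
  obtain ⟨⟨e1, e2⟩, e3, e4⟩ := hx₀ x hx
  obtain ⟨u, hu⟩ : ∃ u, u = Real.log (Real.log x) := ⟨_, rfl⟩
  obtain ⟨v, hv⟩ : ∃ v, v = Real.log u := ⟨_, rfl⟩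
  obtain ⟨w, hw⟩ : ∃ w, w = Real.log v := ⟨_, rfl⟩
  rw [← hu] at e1 e2 e3 e4
  rw [← hv] at e1 e3 e4
  rw [← hw] at e4
  have hu0 : 0 < u := by linarith
  have hv0 : 0 < v := by linarith
  have hA0 : (0 : ℝ) ≤ A := Nat.cast_nonneg A
  rw [show Real.exp v = u by rw [hv, Real.exp_log hu0], le_div_iff₀ (by positivity)] at e1
  have hT : v ≤ T x := by
    unfold T
    rw [← hu, ← hv, ← hw, le_div_iff₀ (by positivity)]
    calc v * (40 * v) = 40 * v ^ 2 := by ring
      _ ≤ u * 1 := by linarith
      _ ≤ u * w := mul_le_mul_of_nonneg_left e4 hu0.le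
  refine ⟨?_, ?_⟩
  · refine (sum_le_card_nsmul _ _ 1 fun p hp => ?_).trans ?_
    · rw [mem_filter] at hp
      have h2 : (1 : ℝ) ≤ p := by exact_mod_cast (Nat.prime_of_mem_primeFactors hp.1).one_lt.le
      rw [div_le_one (by linarith)]
      exact h2
    · rw [nsmul_eq_mul, mul_one]
      exact_mod_cast hq
  · rw [← hu]
    refine (sum_le_card_nsmul _ _ (1 / u) fun p hp => ?_).trans ?_
    · rw [mem_filter] at hp
      have hp0 : (0 : ℝ) < p := by exact_mod_cast (Nat.prime_of_mem_primeFactors hp.1).pos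
      apply one_div_le_one_div_of_le hu0
      have h2 : v < Real.log p := lt_of_le_of_lt hT hp.2.2
      have h3 := Real.exp_le_exp.2 h2.le
      rwa [Real.exp_log hp0, hv, Real.exp_log hu0] at h3
    · rw [nsmul_eq_mul, mul_one_div]
      apply div_le_div_of_nonneg_right _ hu0.le
      refine le_trans ?_ (show (((q.primeFactors.filter (fun p : ℕ => (p : ℝ) ≤ Real.log x)).card : ℕ) : ℝ) ≤ A by
        exact_mod_cast hq)
      apply Nat.cast_le.2
      apply card_le_card
      intro p hp
      rw [mem_filter] at hp ⊢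
      exact ⟨hp.1, hp.2.1⟩

/-- For all `A` and `B` there are `κ, c > 0` such that for every large `X` there is an exceptional modulus
`q₁ > (log X) ^ B` with the following property. Let `q ≤ X ^ κ` be a positive integer which is thin (for instance: with
at most `A` different prime factors up to `log X`) and not divisible by `q₁`, and let `a` be prime to `q`. Then there are
at least `X ^ κ` primes `p ≤ X`, `p ≡ a (mod q)`, such that no other prime lies within `c R(X)` of `p`. -/
theorem result (A : ℝ) (B : ℕ) : ∃ κ c : ℝ, 0 < κ ∧ 0 < c ∧ ∃ X₀ : ℝ, ∀ X : ℝ, X₀ ≤ X →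
    ∃ q₁ : ℕ, Real.log X ^ B < q₁ ∧ ∀ q : ℕ, 1 ≤ q → (q : ℝ) ≤ X ^ κ → ¬ q₁ ∣ q → Thin A X q →
      ∀ a : ℕ, a.Coprime q →
        X ^ κ ≤ ({p : ℕ | p.Prime ∧ (p : ℝ) ≤ X ∧ p ≡ a [MOD q] ∧
          ∀ p' : ℕ, p'.Prime → p' ≠ p → c * R X < |(p' : ℝ) - p|}.ncard : ℝ) := by
  obtain ⟨κ, c, hκ, hc, X₀, h⟩ := Pool.Agent.R529.LG.final A B
  refine ⟨κ, c, hκ, hc, X₀, fun X hX => ?_⟩
  obtain ⟨q₁, hq₁, hq⟩ := h X hX
  exact ⟨q₁, hq₁, fun q h1 h2 h3 h4 a ha => hq q h1 h2 h3 h4.1 h4.2 a ha⟩

end Pool.Agent.Results.MP_ff81b6_nt.LinnikIsolatedPrimes
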